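import Pool.Agent.H68.L.R_seed8.Z702.Defs
import Pool.Agent.H68.L.R_seed8.TH841.LS.Loca0

/-!
# Local points at the primes of good reduction (job Z702-LG)
-/

set_option autoImplicit false

namespace Pool.Agent.Z894.LG

open Finset
open Pool.Agent.TH841.LS.LOCA0

section chi

variable {p : ℕ} [hp : Fact p.Prime]

theorem two_ne (h2 : p ≠ 2) : (2 : ZMod p) ≠ 0 := by
  intro h0
  have : ((2 : ℕ) : ZMod p) = 0 := by exact_mod_cast h0
  rw [ZMod.natCast_eq_zero_iff] at this
  exact h2 ((Nat.prime_dvd_prime_iff_eq hp.out Nat.prime_two).1 this)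

/-- the conic `y² = x² - D` has at most `p - 1` points -/
theorem sum_conic (h2 : p ≠ 2) {D : ZMod p} (hD : D ≠ 0) :
    ∑ x : ZMod p, quadraticChar (ZMod p) (x ^ 2 - D) ≤ -1 := by
  have hF := ringChar_ne (p := p) h2
  have h1 : ∀ x : ZMod p, (((univ.filter (fun y : ZMod p => y ^ 2 = x ^ 2 - D)).card : ℕ) : ℤ) =
      quadraticChar (ZMod p) (x ^ 2 - D) + 1 := by
    intro x
    rw [← quadraticChar_card_sqrts hF (x ^ 2 - D)]
    congr 2
    ext y
    simp
  have h3 : (∑ x : ZMod p, (univ.filter (fun y : ZMod p => y ^ 2 = x ^ 2 - D)).card) ≤ p - 1 := by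
    rw [← Finset.card_sigma]
    have hc : ((univ : Finset (ZMod p)).erase 0).card = p - 1 := by
      rw [Finset.card_erase_of_mem (mem_univ _), Finset.card_univ, ZMod.card]
    rw [← hc]
    have hprod : ∀ s ∈ (univ : Finset (ZMod p)).sigma
        (fun x => univ.filter (fun y : ZMod p => y ^ 2 = x ^ 2 - D)),
        (s.1 + s.2) * (s.1 - s.2) = D := by
      intro s hs
      rw [Finset.mem_sigma, Finset.mem_filter] at hs
      have := hs.2.2
      linear_combination -this
    apply Finset.card_le_card_of_injOn (fun s : (_ : ZMod p) × ZMod p => s.1 + s.2)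
    · intro s hs
      rw [Finset.mem_coe, Finset.mem_erase]
      refine ⟨?_, mem_univ _⟩
      intro h0
      have := hprod s hs
      simp only at h0
      rw [h0, zero_mul] at this
      exact hD this.symm
    · rintro ⟨x, y⟩ hs ⟨x', y'⟩ hs' he
      have e1 := hprod _ hs
      have e2 := hprod _ hs'
      simp only at e1 e2 he
      have h0 : x + y ≠ 0 := by
        intro h0
        rw [h0, zero_mul] at e1
        exact hD e1.symm
      have e3 : x - y = x' - y' := by
        apply mul_left_cancel₀ h0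
        rw [e1, he, e2]
      have e4 : 2 * x = 2 * x' := by linear_combination he + e3
      have e5 : x = x' := mul_left_cancel₀ (two_ne h2) e4
      have e6 : y = y' := by linear_combination he - e5
      rw [e5, e6]
  have h4 : (∑ x : ZMod p, quadraticChar (ZMod p) (x ^ 2 - D)) + p =
      ((∑ x : ZMod p, (univ.filter (fun y : ZMod p => y ^ 2 = x ^ 2 - D)).card : ℕ) : ℤ) := by
    rw [Nat.cast_sum, Finset.sum_congr rfl (fun x _ => h1 x), Finset.sum_add_distrib]
    simp [ZMod.card]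
  have h5 : ((∑ x : ZMod p, (univ.filter (fun y : ZMod p => y ^ 2 = x ^ 2 - D)).card : ℕ) : ℤ) ≤
      (p : ℤ) - 1 := by
    have := hp.out.one_lt
    have h6 : (((p - 1 : ℕ)) : ℤ) = (p : ℤ) - 1 := by
      rw [Nat.cast_sub this.le, Nat.cast_one]
    rw [← h6]
    exact_mod_cast h3
  linarith

/-- a nonsquare `x` such that `x (x² - 2 a x + a² - 4 b)` is a square -/
theorem exists_x' (h2 : p ≠ 2) {a b : ZMod p} (hb : b ≠ 0)
    (hc : quadraticChar (ZMod p) (a ^ 2 - 4 * b) = 1) : ∃ x : ZMod p,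
    quadraticChar (ZMod p) x = -1 ∧
      (quadraticChar (ZMod p) (x * ((x - a) ^ 2 - 4 * b)) = 1 ∨ (x - a) ^ 2 - 4 * b = 0) := by
  by_contra hcon
  push Not at hcon
  have hF := ringChar_ne (p := p) h2
  have key : ∀ x : ZMod p, 0 ≤ quadraticChar (ZMod p) ((x - a) ^ 2 - 4 * b) +
      quadraticChar (ZMod p) x := by
    intro x
    by_cases hx : x = 0
    · subst hx
      have e : (0 - a) ^ 2 - 4 * b = a ^ 2 - 4 * b := by ring
      rw [e, hc, quadraticChar_zero]
      norm_num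
    · rcases quadraticChar_dichotomy hx with h | h
      · rw [h]
        by_cases h0 : (x - a) ^ 2 - 4 * b = 0
        · rw [h0, quadraticChar_zero]; norm_num
        · rcases quadraticChar_dichotomy h0 with h' | h' <;> rw [h'] <;> norm_num
      · obtain ⟨c1, c2⟩ := hcon x h
        rcases quadraticChar_dichotomy c2 with h' | h'
        · rw [h, h']; norm_num
        · exfalso
          apply c1
          rw [map_mul, h, h']
          norm_num
  have h4b : 4 * b ≠ 0 := by
    have h22 : (4 : ZMod p) = 2 * 2 := by norm_num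
    rw [h22]
    exact mul_ne_zero (mul_ne_zero (two_ne h2) (two_ne h2)) hb
  have hsum : ∑ x : ZMod p, (quadraticChar (ZMod p) ((x - a) ^ 2 - 4 * b) +
      quadraticChar (ZMod p) x) ≤ -1 := by
    rw [Finset.sum_add_distrib, quadraticChar_sum_zero hF, add_zero]
    refine le_trans (le_of_eq ?_) (sum_conic h2 h4b)
    exact Fintype.sum_equiv (Equiv.subRight a) _ _ fun x => rfl
  have := Finset.sum_nonneg (fun x (_ : x ∈ (Finset.univ : Finset (ZMod p))) => key x)
  linarith

end chi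

theorem aux (p : ℕ) [hp : Fact p.Prime] (a b d : ℤ) (h2 : p ≠ 2) (hb : (b : ZMod p) ≠ 0)
    (hc : quadraticChar (ZMod p) ((a : ZMod p) ^ 2 - 4 * (b : ZMod p)) = 1)
    (hd0 : d ≠ 0) (hd1 : quadraticChar (ZMod p) (d : ZMod p) = -1) :
    Pool.Agent.Z702.LocI ℚ_[p] a b d := by
  have hd0 : (d : ℚ_[p]) ≠ 0 := by exact_mod_cast hd0
  have sq : ∀ u : ℤ_[p], quadraticChar (ZMod p) (PadicInt.toZMod u) = 1 →
      ∃ v : ℤ_[p], u = v ^ 2 := by
    intro u hu
    obtain ⟨v, hv⟩ := sq_of_char h2 hu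
    exact ⟨v, by rw [hv]; ring⟩
  obtain ⟨x, hx, hx'⟩ := exists_x' h2 hb hc
  have key : ∀ u : ℤ_[p], quadraticChar (ZMod p) (PadicInt.toZMod u) = -1 →
      ∃ r : ℚ_[p], (u : ℚ_[p]) = (d : ℚ_[p]) * r ^ 2 := by
    intro u hu
    obtain ⟨s, hs⟩ := sq (u * (d : ℤ_[p])) (by
      rw [map_mul, map_intCast, map_mul, hu, hd1]; norm_num)
    refine ⟨s / d, ?_⟩
    have hs' : (u : ℚ_[p]) * (d : ℚ_[p]) = (s : ℚ_[p]) ^ 2 := by
      have := congrArg (fun z : ℤ_[p] => (z : ℚ_[p])) hs
      push_cast at this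
      exact this
    field_simp
    linear_combination hs'
  have hne : ∀ X : ℤ_[p], PadicInt.toZMod X = x → (X : ℚ_[p]) ≠ 0 := by
    intro X hX h0
    have h0' : X = 0 := Subtype.ext h0
    rw [h0', map_zero] at hX
    rw [← hX, quadraticChar_zero] at hx
    norm_num at hx
  rcases hx' with h | h
  · set x0 : ℤ_[p] := ((x.val : ℕ) : ℤ_[p]) with hx0
    have hxx : PadicInt.toZMod x0 = x := by
      rw [hx0, map_natCast, ZMod.natCast_zmod_val]
    obtain ⟨r, hr⟩ := key x0 (by rw [hxx]; exact hx)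
    obtain ⟨Y, hY⟩ := sq (x0 * ((x0 - (a : ℤ_[p])) ^ 2 - 4 * (b : ℤ_[p]))) (by
      have e : PadicInt.toZMod (x0 * ((x0 - (a : ℤ_[p])) ^ 2 - 4 * (b : ℤ_[p]))) =
          x * ((x - (a : ZMod p)) ^ 2 - 4 * (b : ZMod p)) := by
        rw [map_mul, map_sub, map_pow, map_sub, map_mul, map_intCast, map_intCast, map_ofNat, hxx]
      rw [e]; exact h)
    have hY' : (x0 : ℚ_[p]) * (((x0 : ℚ_[p]) - (a : ℚ_[p])) ^ 2 - 4 * (b : ℚ_[p])) =
        (Y : ℚ_[p]) ^ 2 := by
      have := congrArg (fun z : ℤ_[p] => (z : ℚ_[p])) hY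
      push_cast at this
      exact this
    refine ⟨(x0 : ℚ_[p]), Y, r, hne x0 hxx, ?_, hr⟩
    linear_combination -hY'
  · -- `4 b` is a square
    have h4 : quadraticChar (ZMod p) (PadicInt.toZMod (4 * (b : ℤ_[p]))) = 1 := by
      have e : PadicInt.toZMod (4 * (b : ℤ_[p])) = (x - (a : ZMod p)) ^ 2 := by
        rw [map_mul, map_intCast, map_ofNat]
        linear_combination -h
      rw [e]
      apply quadraticChar_sq_one'
      intro h0
      rw [h0] at h
      have h22 : (4 : ZMod p) = 2 * 2 := by norm_num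
      have : (4 : ZMod p) * b = 0 := by linear_combination -h
      rw [h22] at this
      exact mul_ne_zero (mul_ne_zero (two_ne h2) (two_ne h2)) hb this
    obtain ⟨v, hv⟩ := sq _ h4
    have hv1 : (PadicInt.toZMod v) ^ 2 = (x - (a : ZMod p)) ^ 2 := by
      rw [← map_pow, ← hv, map_mul, map_intCast, map_ofNat]
      linear_combination -h
    have fin : ∀ X : ℤ_[p], PadicInt.toZMod X = x → (X - (a : ℤ_[p])) ^ 2 = 4 * (b : ℤ_[p]) →
        Pool.Agent.Z702.LocI ℚ_[p] a b d := by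
      intro X hX hX2
      obtain ⟨r, hr⟩ := key X (by rw [hX]; exact hx)
      have hX3 : ((X : ℚ_[p]) - (a : ℚ_[p])) ^ 2 = 4 * (b : ℚ_[p]) := by
        have := congrArg (fun z : ℤ_[p] => (z : ℚ_[p])) hX2
        push_cast at this
        exact this
      refine ⟨(X : ℚ_[p]), 0, r, hne X hX, ?_, hr⟩
      linear_combination -(X : ℚ_[p]) * hX3
    rcases sq_eq_sq_iff_eq_or_eq_neg.1 hv1 with h5 | h5
    · refine fin ((a : ℤ_[p]) + v) ?_ ?_
      · rw [map_add, map_intCast, h5]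
        ring
      · rw [hv]
        ring
    · refine fin ((a : ℤ_[p]) - v) ?_ ?_
      · rw [map_sub, map_intCast, h5]
        ring
      · rw [hv]
        ring

theorem t_LG (h : Pool.Agent.Z702.S_LQ) : Pool.Agent.Z702.S_LG := by
  intro p hp M d h2 h7 hM hd
  have hMz : (M : ZMod p) ≠ 0 := by
    intro h0
    exact hM ((ZMod.intCast_zmod_eq_zero_iff_dvd M p).1 h0)
  have hdz : (d : ZMod p) ≠ 0 := by
    intro h0
    exact hd ((ZMod.intCast_zmod_eq_zero_iff_dvd d p).1 h0)
  have h7z : (7 : ZMod p) ≠ 0 := by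
    intro h0
    have : ((7 : ℕ) : ZMod p) = 0 := by exact_mod_cast h0
    rw [ZMod.natCast_eq_zero_iff] at this
    exact h7 ((Nat.prime_dvd_prime_iff_eq hp.out (by norm_num)).1 this)
  have hM0 : M ≠ 0 := by
    rintro rfl
    exact hM (dvd_zero _)
  have hd0 : d ≠ 0 := by
    rintro rfl
    exact hd (dvd_zero _)
  have hb0 : (128 * M ^ 2 : ℤ) ≠ 0 := by positivity
  have hc0 : (13 * M : ℤ) ^ 2 - 4 * (128 * M ^ 2) ≠ 0 := by
    have : (13 * M : ℤ) ^ 2 - 4 * (128 * M ^ 2) = -343 * M ^ 2 := by ring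
    rw [this]
    exact mul_ne_zero (by norm_num) (pow_ne_zero 2 hM0)
  obtain ⟨hq, -⟩ := h (13 * M) (128 * M ^ 2) d hb0 hc0 hd0
  have hcz : (((13 * M : ℤ) : ZMod p)) ^ 2 - 4 * (((128 * M ^ 2 : ℤ)) : ZMod p) ≠ 0 := by
    have : (((13 * M : ℤ) : ZMod p)) ^ 2 - 4 * (((128 * M ^ 2 : ℤ)) : ZMod p) =
        -(7 ^ 3 * (M : ZMod p) ^ 2) := by
      push_cast
      ring
    rw [this]
    exact neg_ne_zero.2 (mul_ne_zero (pow_ne_zero 3 h7z) (pow_ne_zero 2 hMz))
  have hbz : (((128 * M ^ 2 : ℤ)) : ZMod p) ≠ 0 := by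
    push_cast
    have : (128 : ZMod p) = 2 ^ 7 := by norm_num
    rw [this]
    exact mul_ne_zero (pow_ne_zero 7 (two_ne h2)) (pow_ne_zero 2 hMz)
  have sq : ∀ u : ℤ_[p], quadraticChar (ZMod p) (PadicInt.toZMod u) = 1 →
      IsSquare (u : ℚ_[p]) := by
    intro u hu
    obtain ⟨v, hv⟩ := sq_of_char h2 hu
    exact ⟨v, by rw [hv]; push_cast; ring⟩
  rcases quadraticChar_dichotomy hdz with hd1 | hd1
  · apply hq p
    left
    have := sq (d : ℤ_[p]) (by rw [map_intCast]; exact hd1)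
    push_cast at this
    exact this
  · rcases quadraticChar_dichotomy hcz with hc1 | hc1
    · exact aux p _ _ d h2 hbz hc1 hd0 hd1
    · apply hq p
      right
      have := sq ((d : ℤ_[p]) * (((13 * M : ℤ) : ℤ_[p]) ^ 2 - 4 * ((128 * M ^ 2 : ℤ) : ℤ_[p]))) (by
        have e : PadicInt.toZMod ((d : ℤ_[p]) * (((13 * M : ℤ) : ℤ_[p]) ^ 2 -
            4 * ((128 * M ^ 2 : ℤ) : ℤ_[p]))) = (d : ZMod p) *
            ((((13 * M : ℤ) : ZMod p)) ^ 2 - 4 * (((128 * M ^ 2 : ℤ)) : ZMod p)) := by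
          rw [map_mul, map_sub, map_pow, map_mul, map_intCast, map_intCast, map_intCast, map_ofNat]
        rw [e, map_mul, hd1, hc1]
        norm_num)
      push_cast at this
      push_cast
      exact this

end Pool.Agent.Z894.LG
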